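import Mathlib

/-!
# Project AB (MP_93a5dd_an): exact statements of the independent pieces
See `NOTES.md` in this folder.
-/

namespace Pool.Agent.R508.AB

open MeasureTheory

/-- SEL: measurable selection almost everywhere (Jankov - von Neumann for closed sets). -/
def StmSel : Prop :=
  ∀ K : Set ((ℕ → Bool) × (ℕ → ℕ)), IsClosed K → (∀ c, ∃ m, (c, m) ∈ K) →
    ∀ ν : Measure (ℕ → Bool), IsProbabilityMeasure ν →
      ∃ m : (ℕ → Bool) → (ℕ → ℕ), Measurable m ∧ ∀ᵐ c ∂ν, (c, m c) ∈ K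

/-- UNI: a closed set with full projection and without Borel uniformization. -/
def StmUni : Prop :=
  ∃ K : Set ((ℕ → Bool) × (ℕ → ℕ)), IsClosed K ∧ (∀ c, ∃ m, (c, m) ∈ K) ∧
    ∀ m : (ℕ → Bool) → (ℕ → ℕ), Measurable m → ∃ c, (c, m c) ∉ K

/-- ERG: the translation by `1` on the product of the cyclic groups of distinct prime orders is
ergodic. -/
def StmErg : Prop :=
  ∀ r : ℕ × Bool → ℕ, (∀ k, (r k).Prime) → Function.Injective r →
    ∃ μ : Measure (∀ k, ZMod (r k)), IsProbabilityMeasure μ ∧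
      (∀ g : ∀ k, ZMod (r k), μ.map (fun ω => ω + g) = μ) ∧
      ∀ (α : Type) [Countable α] [MeasurableSpace α] [DiscreteMeasurableSpace α]
        (f : (∀ k, ZMod (r k)) → α), Measurable f → (∀ᵐ ω ∂μ, f (ω + 1) = f ω) →
          ∃ a, ∀ᵐ ω ∂μ, f ω = a

end Pool.Agent.R508.AB
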