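import Pool.Agent.R508.AB.Sys
import Pool.Agent.R508.AB.Stm

/-!
# The core lemma
-/

set_option autoImplicit false

namespace Pool.Agent.R508.AB

open MeasureTheory Topology

/-- the product of the cyclic groups -/
abbrev Om : Type := ∀ k : ℕ × Bool, ZMod (r k)

/-- the fibre map -/
def pif (c : ℕ → Bool) (ω : Om) : Ya := fun k => if k.2 = c k.1 then ful (ω k) else emp k

lemma pif_mem (c : ℕ → Bool) (ω : Om) : pif c ω ∈ YS := by
  intro j
  unfold pif
  cases c j <;> simp [ful_ne_emp]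

/-- the fibre map with values in `Y` -/
def pic (c : ℕ → Bool) (ω : Om) : YS := ⟨pif c ω, pif_mem c ω⟩

lemma pif_add_one (c : ℕ → Bool) (ω : Om) (t : ℤ) : pif c (fun k => ω k + (t : ZMod (r k))) =
    shY t (pif c ω) := by
  funext k
  by_cases h : k.2 = c k.1
  · simp [pif, shY, h]
  · simp [pif, shY, h]

lemma atmost {K : Set ((ℕ → Bool) × (ℕ → ℕ))} {x : Xi} (hx : x ∈ XS K) (k : ℕ × Bool) (n n' : ℕ)
    (hn : n ≠ n') : x k n = emp k ∨ x k n' = emp k := by
  have hcl : IsClosed {x : Xi | x k n = emp k ∨ x k n' = emp k} := by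
    have h1 : IsClosed {x : Xi | x k n = emp k} :=
      isClosed_eq ((continuous_apply n).comp (continuous_apply k)) continuous_const
    have h2 : IsClosed {x : Xi | x k n' = emp k} :=
      isClosed_eq ((continuous_apply n').comp (continuous_apply k)) continuous_const
    exact h1.union h2
  have hsub : RS K ⊆ {x : Xi | x k n = emp k ∨ x k n' = emp k} := by
    rintro x ⟨c, m, -, hR⟩
    by_contra hcon
    simp only [Set.mem_ofPred_eq, not_or] at hcon
    obtain ⟨j, b⟩ := k
    exact hn (((hR j b n).mp hcon.1).2.trans ((hR j b n').mp hcon.2).2.symm)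
  exact closure_minimal hsub hcl hx

lemma mem_of_rep {K : Set ((ℕ → Bool) × (ℕ → ℕ))} (hK : IsClosed K) {x : Xi} (hx : x ∈ XS K)
    {c : ℕ → Bool} {m : ℕ → ℕ} (hR : Rep c m x) : (c, m) ∈ K := by
  by_contra h
  obtain ⟨U, W, hU, hW, hcU, hmW, hUW⟩ := isOpen_prod_iff.mp hK.isOpen_compl c m h
  obtain ⟨I, u, hu, hIU⟩ := isOpen_pi_iff.mp hU c hcU
  obtain ⟨J, w, hw, hJW⟩ := isOpen_pi_iff.mp hW m hmW
  have hop : IsOpen {x' : Xi | ∀ j ∈ I ∪ J, x' (j, c j) (m j) ≠ emp (j, c j)} := by
    have : {x' : Xi | ∀ j ∈ I ∪ J, x' (j, c j) (m j) ≠ emp (j, c j)} =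
        ⋂ j ∈ I ∪ J, {x' : Xi | x' (j, c j) (m j) ≠ emp (j, c j)} := by
      ext x'; simp
    rw [this]
    refine isOpen_biInter_finset fun j _ => ?_
    exact isOpen_ne_fun ((continuous_apply (m j)).comp (continuous_apply (j, c j)))
      continuous_const
  have hxm : x ∈ {x' : Xi | ∀ j ∈ I ∪ J, x' (j, c j) (m j) ≠ emp (j, c j)} := by
    intro j _
    exact (hR j (c j) (m j)).mpr ⟨rfl, rfl⟩
  obtain ⟨x', hx', c', m', hK', hR'⟩ := mem_closure_iff.mp hx _ hop hxm
  have key : ∀ j ∈ I ∪ J, c j = c' j ∧ m j = m' j := fun j hj => (hR' j (c j) (m j)).mp (hx' j hj)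
  refine hUW ⟨hIU ?_, hJW ?_⟩ hK'
  · intro j hj
    show c' j ∈ u j
    rw [← (key j (Finset.mem_union_left _ hj)).1]
    exact (hu j hj).2
  · intro j hj
    show m' j ∈ w j
    rw [← (key j (Finset.mem_union_right _ hj)).2]
    exact (hw j hj).2

lemma measurable_add (g : Om) : Measurable (fun ω : Om => ω + g) := by
  refine measurable_pi_lambda _ fun k => ?_
  exact (measurable_from_top (f := fun a : ZMod (r k) => a + g k)).comp (measurable_pi_apply k)

lemma measurable_pif (c : ℕ → Bool) : Measurable (pif c) := by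
  refine measurable_pi_lambda _ fun k => ?_
  exact (measurable_from_top (f := fun a : ZMod (r k) => if k.2 = c k.1 then ful a else emp k)).comp
    (measurable_pi_apply k)

lemma measurable_pic (c : ℕ → Bool) : Measurable (pic c) := (measurable_pif c).subtype_mk

/-- the core lemma -/
theorem core (μ : Measure Om) [IsProbabilityMeasure μ] (hinv : ∀ g : Om, μ.map (fun ω => ω + g) = μ)
    (herg : ∀ (α : Type) [Countable α] [MeasurableSpace α] [DiscreteMeasurableSpace α]
        (f : Om → α), Measurable f → (∀ᵐ ω ∂μ, f (ω + 1) = f ω) → ∃ a, ∀ᵐ ω ∂μ, f ω = a)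
    (K : Set ((ℕ → Bool) × (ℕ → ℕ))) (c : ℕ → Bool) (A : Set YS) (F : YS → Xi) (hF : Measurable F)
    (hA : ∀ᵐ ω ∂μ, pic c ω ∈ A) (hFX : ∀ y ∈ A, F y ∈ XS K)
    (heq : ∀ ω, pic c ω ∈ A → F (pic c (ω + 1)) = shX 1 (F (pic c ω))) (hinj : Set.InjOn F A) :
    ∃ m : ℕ → ℕ, ∀ᵐ ω ∂μ, Rep c m (F (pic c ω)) := by
  have star : ∀ (k : ℕ × Bool) (n : ℕ), ∃ τ : V k, ∀ᵐ ω ∂μ, F (pic c ω) k n = sh (ω k) τ := by
    intro k n
    have hm : Measurable (fun ω : Om => sh (-(ω k)) (F (pic c ω) k n)) := by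
      have h1 : Measurable (fun ω : Om => (ω k, F (pic c ω) k n)) := by
        refine (measurable_pi_apply k).prodMk ?_
        exact (measurable_pi_apply n).comp ((measurable_pi_apply k).comp
          (hF.comp (measurable_pic c)))
      have h2 : Measurable (fun p : ZMod (r k) × V k => sh (-p.1) p.2) :=
        measurable_of_countable _
      exact h2.comp h1
    have hc : Countable (V k) := inferInstance
    obtain ⟨a, ha⟩ := herg (V k) _ hm (by
      filter_upwards [hA] with ω hω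
      rw [heq ω hω]
      show sh (-(ω k + 1)) (sh ((1 : ℤ) : ZMod (r k)) (F (pic c ω) k n)) = _
      rw [sh_sh]
      congr 1
      push_cast
      ring)
    refine ⟨a, ?_⟩
    filter_upwards [ha] with ω hω
    rw [← hω, sh_sh]
    simp
  choose τ hτ using star
  have hall : ∀ᵐ ω ∂μ, ∀ k n, F (pic c ω) k n = sh (ω k) (τ k n) := by
    rw [ae_all_iff]; intro k
    rw [ae_all_iff]; intro n
    exact hτ k n
  have hgood : ∀ᵐ ω ∂μ, pic c ω ∈ A ∧ ∀ k n, F (pic c ω) k n = sh (ω k) (τ k n) := hA.and hall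
  have htr : ∀ e : Om, ∀ᵐ ω ∂μ, pic c (ω + e) ∈ A ∧
      ∀ k n, F (pic c (ω + e)) k n = sh ((ω + e) k) (τ k n) := by
    intro e
    have hmp : MeasurePreserving (fun ω : Om => ω + e) μ μ := ⟨measurable_add e, hinv e⟩
    exact hmp.quasiMeasurePreserving.ae hgood
  have hboth : ∀ e : Om, ∃ ω : Om, (pic c ω ∈ A ∧ ∀ k n, F (pic c ω) k n = sh (ω k) (τ k n)) ∧
      (pic c (ω + e) ∈ A ∧ ∀ k n, F (pic c (ω + e)) k n = sh ((ω + e) k) (τ k n)) := fun e =>
    (hgood.and (htr e)).exists
  -- cells of the wrong type are empty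
  have hwrong : ∀ (k : ℕ × Bool) (n : ℕ), k.2 ≠ c k.1 → τ k n = emp k := by
    intro k n hk
    obtain ⟨ω, ⟨-, h1⟩, ⟨-, h2⟩⟩ := hboth (Pi.single k 1)
    have hpic : pic c (ω + Pi.single k 1) = pic c ω := by
      apply Subtype.ext
      show pif c _ = pif c _
      funext l
      unfold pif
      by_cases hl : l.2 = c l.1
      · have hlk : l ≠ k := by rintro rfl; exact hk hl
        simp [hl, Pi.single_eq_of_ne hlk]
      · simp [hl]
    have h3 := h2 k n
    rw [hpic, h1 k n] at h3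
    rcases eq_emp_or (τ k n) with h | ⟨a, h⟩
    · exact h
    · exfalso
      rw [h] at h3
      simp only [sh_ful, ful_inj, Pi.add_apply, Pi.single_eq_same] at h3
      have : (1 : ZMod (r k)) = 0 := by linear_combination -h3
      exact one_ne_zero this
  have hex : ∀ j, ∃ n, τ (j, c j) n ≠ emp (j, c j) := by
    intro j
    by_contra hcon
    push Not at hcon
    obtain ⟨ω, ⟨hA1, h1⟩, ⟨hA2, h2⟩⟩ := hboth (Pi.single (j, c j) 1)
    have hFF : F (pic c (ω + Pi.single (j, c j) 1)) = F (pic c ω) := by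
      funext k n
      rw [h1 k n, h2 k n]
      by_cases hk : k = (j, c j)
      · subst hk
        rw [hcon n]; simp
      · simp [Pi.single_eq_of_ne hk]
    have h3 := congrArg (fun y : YS => y.1 (j, c j)) (hinj hA2 hA1 hFF)
    simp only [pic, pif, Pi.add_apply, Pi.single_eq_same, if_true, ful_inj] at h3
    have : (1 : ZMod (r (j, c j))) = 0 := by linear_combination h3
    exact one_ne_zero this
  choose m hm using hex
  refine ⟨m, ?_⟩
  filter_upwards [hgood] with ω hω j b n
  rw [hω.2 (j, b) n, Ne, sh_eq_emp]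
  constructor
  · intro h
    have hb : b = c j := by
      by_contra hb
      exact h (hwrong (j, b) n hb)
    subst hb
    refine ⟨rfl, ?_⟩
    by_contra hn
    rcases atmost (hFX _ hω.1) (j, c j) n (m j) hn with h4 | h4
    · rw [hω.2 (j, c j) n, sh_eq_emp] at h4
      exact h h4
    · rw [hω.2 (j, c j) (m j), sh_eq_emp] at h4
      exact hm j h4
  · rintro ⟨rfl, rfl⟩
    exact hm j

end Pool.Agent.R508.AB
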