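import Mathlib

/-!
# Almost Borel embeddings (MP_93a5dd_an): definitions
-/

namespace Pool.Agent.R508.AB

open MeasureTheory

/-- A topological `ℤ^d`-system: a compact metric space (with its Borel `σ`-algebra) with an action
of `ℤ^d` by homeomorphisms. -/
structure TopSystem (d : ℕ) where
  /-- the space -/
  carrier : Type
  [metric : MetricSpace carrier]
  [compact : CompactSpace carrier]
  [meas : MeasurableSpace carrier]
  [borel : BorelSpace carrier]
  /-- the action -/
  act : (Fin d → ℤ) → carrier → carrier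
  act_zero : ∀ x, act 0 x = x
  act_add : ∀ i j x, act (i + j) x = act i (act j x)
  continuous_act : ∀ i, Continuous (act i)

attribute [instance] TopSystem.metric TopSystem.compact TopSystem.meas TopSystem.borel

variable {d : ℕ}

/-- `μ` is an invariant Borel probability measure of `Y`. -/
def IsInvariantMeasure (Y : TopSystem d) (μ : Measure Y.carrier) : Prop :=
  IsProbabilityMeasure μ ∧ ∀ i, μ.map (Y.act i) = μ

/-- `A` is invariant under the action. -/
def InvSet (Y : TopSystem d) (A : Set Y.carrier) : Prop := ∀ i y, y ∈ A → Y.act i y ∈ A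

/-- `ρ : A → X` is a Borel equivariant map (a morphism), `A` being an invariant set of `Y`. -/
def IsMorphism (Y X : TopSystem d) (A : Set Y.carrier) (ρ : A → X.carrier) : Prop :=
  Measurable ρ ∧ ∀ (i : Fin d → ℤ) (y y' : A), (y' : Y.carrier) = Y.act i y →
    ρ y' = X.act i (ρ y)

/-- `(Y, μ)` can be realized as an invariant measure on `X`. -/
def Realized (Y X : TopSystem d) (μ : Measure Y.carrier) : Prop :=
  ∃ A : Set Y.carrier, MeasurableSet A ∧ InvSet Y A ∧ μ Aᶜ = 0 ∧
    ∃ ρ : A → X.carrier, IsMorphism Y X A ρ ∧ Function.Injective ρ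

/-- There is an almost Borel embedding of `Y` into `X`: an injective morphism defined on an
invariant Borel set which is full (its complement is null for all invariant probabilities). -/
def AlmostBorelEmbeds (Y X : TopSystem d) : Prop :=
  ∃ A : Set Y.carrier, MeasurableSet A ∧ InvSet Y A ∧
    (∀ μ : Measure Y.carrier, IsInvariantMeasure Y μ → μ Aᶜ = 0) ∧
    ∃ ρ : A → X.carrier, IsMorphism Y X A ρ ∧ Function.Injective ρ

/-- The orders of the cyclic groups: distinct primes. -/
noncomputable def r (k : ℕ × Bool) : ℕ := Nat.nth Nat.Prime (2 * k.1 + k.2.toNat)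

lemma r_prime (k : ℕ × Bool) : (r k).Prime := Nat.prime_nth_prime _

lemma r_inj : Function.Injective r := by
  intro k l h
  have h1 := Nat.nth_injective Nat.infinite_setOfPred_prime h
  obtain ⟨a, b⟩ := k
  obtain ⟨a', b'⟩ := l
  cases b <;> cases b' <;> simp at h1 ⊢ <;> omega

instance (k : ℕ × Bool) : Fact (r k).Prime := ⟨r_prime k⟩

/-- cells: either empty or an element of the cyclic group -/
def V (k : ℕ × Bool) : Type := Option (ZMod (r k))

instance (k : ℕ × Bool) : Finite (V k) := inferInstanceAs (Finite (Option (ZMod (r k))))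
instance (k : ℕ × Bool) : TopologicalSpace (V k) := ⊥
instance (k : ℕ × Bool) : DiscreteTopology (V k) := ⟨rfl⟩
instance (k : ℕ × Bool) : MeasurableSpace (V k) := ⊤
instance (k : ℕ × Bool) : DiscreteMeasurableSpace (V k) := ⟨fun _ => trivial⟩
instance (k : ℕ × Bool) : BorelSpace (V k) := ⟨by
  rw [borel_eq_top_of_discrete]; rfl⟩

/-- the empty cell -/
def emp (k : ℕ × Bool) : V k := (none : Option (ZMod (r k)))

/-- a full cell -/
def ful {k : ℕ × Bool} (a : ZMod (r k)) : V k := (some a : Option (ZMod (r k)))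

/-- rotation of a cell -/
noncomputable def sh {k : ℕ × Bool} (t : ZMod (r k)) (v : V k) : V k :=
  Option.map (fun a => a + t) (v : Option (ZMod (r k)))

@[simp] lemma sh_emp {k : ℕ × Bool} (t : ZMod (r k)) : sh t (emp k) = emp k := rfl
@[simp] lemma sh_ful {k : ℕ × Bool} (t a : ZMod (r k)) : sh t (ful a) = ful (a + t) := rfl

lemma ful_inj {k : ℕ × Bool} {a b : ZMod (r k)} : ful a = ful b ↔ a = b := by
  unfold ful
  exact Option.some_inj

lemma ful_ne_emp {k : ℕ × Bool} (a : ZMod (r k)) : ful a ≠ emp k := by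
  unfold ful emp
  exact Option.some_ne_none _

lemma eq_emp_or {k : ℕ × Bool} (v : V k) : v = emp k ∨ ∃ a, v = ful a := by
  rcases (v : Option (ZMod (r k))) with _ | a
  · exact Or.inl rfl
  · exact Or.inr ⟨a, rfl⟩

lemma sh_sh {k : ℕ × Bool} (s t : ZMod (r k)) (v : V k) : sh s (sh t v) = sh (s + t) v := by
  rcases eq_emp_or v with rfl | ⟨a, rfl⟩
  · rfl
  · simp only [sh_ful, ful_inj]; ring

@[simp] lemma sh_zero {k : ℕ × Bool} (v : V k) : sh 0 v = v := by
  rcases eq_emp_or v with rfl | ⟨a, rfl⟩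
  · rfl
  · simp

lemma sh_eq_emp {k : ℕ × Bool} (t : ZMod (r k)) (v : V k) : sh t v = emp k ↔ v = emp k := by
  rcases eq_emp_or v with rfl | ⟨a, rfl⟩
  · simp
  · simp [ful_ne_emp]

lemma sh_injective {k : ℕ × Bool} (t : ZMod (r k)) : Function.Injective (sh (k := k) t) := by
  intro v w h
  have := congrArg (sh (-t)) h
  simpa [sh_sh] using this

/-- the ambient space of `X` -/
abbrev Xi : Type := ∀ (k : ℕ × Bool), ℕ → V k

/-- the ambient space of `Y` -/
abbrev Ya : Type := ∀ k : ℕ × Bool, V k

/-- `x` represents the pair `(c, m)` -/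
def Rep (c : ℕ → Bool) (m : ℕ → ℕ) (x : Xi) : Prop :=
  ∀ j b n, (x (j, b) n ≠ emp (j, b) ↔ (b = c j ∧ n = m j))

/-- the points over a set of pairs -/
def RS (K : Set ((ℕ → Bool) × (ℕ → ℕ))) : Set Xi := {x | ∃ c m, (c, m) ∈ K ∧ Rep c m x}

/-- the space `X` -/
def XS (K : Set ((ℕ → Bool) × (ℕ → ℕ))) : Set Xi := closure (RS K)

/-- the space `Y` -/
def YS : Set Ya := {y | ∀ j, (y (j, true) = emp (j, true) ↔ y (j, false) ≠ emp (j, false))}

/-- diagonal action on `Xi` -/
noncomputable def shX (t : ℤ) (x : Xi) : Xi := fun k n => sh (t : ZMod (r k)) (x k n)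

/-- diagonal action on `Ya` -/
noncomputable def shY (t : ℤ) (y : Ya) : Ya := fun k => sh (t : ZMod (r k)) (y k)

end Pool.Agent.R508.AB
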