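import Mathlib
import Pool.Agent.R508.AB.Stm

/-!
# AB-ERG: ergodicity of the translation by `1` (helper699)
-/

set_option autoImplicit false

namespace Pool.Agent.R508.AB

open MeasureTheory TopologicalSpace

theorem dense_one (r : ℕ × Bool → ℕ) (hp : ∀ k, (r k).Prime) (hinj : Function.Injective r) :
    DenseRange fun x : ℤ => x • (1 : ∀ k, ZMod (r k)) := by
  classical
  intro x
  rw [mem_closure_iff]
  intro U hU hxU
  obtain ⟨I, u, hu, hI⟩ := (isOpen_pi_iff.1 hU) x hxU
  have hcop : (I : Set (ℕ × Bool)).Pairwise (Function.onFun Nat.Coprime r) := by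
    intro i _ j _ hij
    exact (Nat.coprime_primes (hp i) (hp j)).2 (fun h => hij (hinj h))
  obtain ⟨m, hm⟩ := Nat.chineseRemainderOfFinset (fun i => (x i).val) r I
    (fun i _ => (hp i).ne_zero) hcop
  refine ⟨(m : ℤ) • (1 : ∀ k, ZMod (r k)), ?_, ⟨(m : ℤ), rfl⟩⟩
  apply hI
  intro i hi
  have : NeZero (r i) := ⟨(hp i).ne_zero⟩
  have h1 : ((m : ℤ) • (1 : ∀ k, ZMod (r k))) i = x i := by
    have h2 : ((m : ℕ) : ZMod (r i)) = (((x i).val : ℕ) : ZMod (r i)) :=
      (ZMod.natCast_eq_natCast_iff _ _ _).2 (hm i hi)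
    rw [ZMod.natCast_zmod_val] at h2
    rw [Pi.smul_apply, Pi.one_apply, zsmul_eq_mul, mul_one, Int.cast_natCast]
    exact h2
  rw [h1]
  exact (hu i hi).2

theorem erg : StmErg := by
  classical
  intro r hp hinj
  have hne : ∀ k, NeZero (r k) := fun k => ⟨(hp k).ne_zero⟩
  let μ : Measure (∀ k, ZMod (r k)) := Measure.addHaarMeasure ⊤
  have hprob : IsProbabilityMeasure μ := ⟨by
    have h := Measure.addHaarMeasure_self (K₀ := (⊤ : PositiveCompacts (∀ k, ZMod (r k))))
    simpa using h⟩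
  refine ⟨μ, hprob, ?_, ?_⟩
  · intro g
    have h1 : (fun ω : ∀ k, ZMod (r k) => ω + g) = fun ω => g + ω := by
      funext ω; rw [add_comm]
    rw [h1]
    exact map_add_left_eq_self μ g
  · intro α _ _ _ f hf hfi
    have hd := dense_one r hp hinj
    have herg := ergodic_add_left_of_denseRange_zsmul hd μ
    have hα : Nonempty α := ⟨f 0⟩
    obtain ⟨c, hc⟩ := herg.ae_eq_const_of_ae_eq_comp₀ (g := f) hf.nullMeasurable (by
      filter_upwards [hfi] with ω h
      show f (1 + ω) = f ω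
      rw [add_comm]
      exact h)
    exact ⟨c, hc⟩

end Pool.Agent.R508.AB
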