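import Pool.Agent.R508.AB.Core

/-!
# Assembly
-/

set_option autoImplicit false

namespace Pool.Agent.R508.AB

open MeasureTheory Topology

open Classical in
/-- the colour sequence of a point of `Y` -/
noncomputable def cm (y : YS) : ℕ → Bool := fun j => if y.1 (j, true) = emp (j, true) then false else true

lemma cm_iff (y : YS) (j : ℕ) (b : Bool) : y.1 (j, b) ≠ emp (j, b) ↔ b = cm y j := by
  have h := y.2 j
  unfold cm
  cases b
  · by_cases h1 : y.1 (j, true) = emp (j, true)
    · simp only [h1, if_true, iff_true]; exact h.mp h1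
    · simp only [h1, if_false]
      constructor
      · intro h2; exact absurd (h.mpr h2) h1
      · intro h2; simp at h2
  · by_cases h1 : y.1 (j, true) = emp (j, true)
    · simp [h1]
    · simp [h1]

lemma measurable_cm : Measurable cm := by
  refine measurable_pi_lambda _ fun j => ?_
  have h1 : Measurable (fun y : YS => y.1 (j, true)) :=
    (measurable_pi_apply (j, true)).comp measurable_subtype_coe
  exact (measurable_from_top (f := fun v : V (j, true) => (open Classical in
    if v = emp (j, true) then false else true : Bool))).comp h1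

lemma cm_shY (t : ℤ) (y : YS) : cm ⟨shY t y.1, shY_mem t y.2⟩ = cm y := by
  funext j
  have h := sh_eq_emp (k := (j, true)) (t : ZMod (r (j, true))) (y.1 (j, true))
  unfold cm
  by_cases h1 : y.1 (j, true) = emp (j, true)
  · exact (if_pos (h.mpr h1)).trans (if_pos h1).symm
  · exact (if_neg (fun h2 => h1 (h.mp h2))).trans (if_neg h1).symm

/-- every invariant measure is realized -/
theorem realize (hsel : StmSel) {d : ℕ} (hd : 1 ≤ d) (K : Set ((ℕ → Bool) × (ℕ → ℕ)))
    (hK : IsClosed K) (hfull : ∀ c, ∃ m, (c, m) ∈ K) (μ : Measure YS)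
    (hp : IsProbabilityMeasure μ) : Realized (SY hd) (SX hd K) μ := by
  have hcm : @Measurable YS (ℕ → Bool) _ _ cm := measurable_cm
  have hν : IsProbabilityMeasure (μ.map cm) := Measure.isProbabilityMeasure_map hcm.aemeasurable
  obtain ⟨m, hm, hmK⟩ := hsel K hK hfull (μ.map cm) hν
  have hmK' : ∀ᵐ y ∂μ, (cm y, m (cm y)) ∈ K := ae_of_ae_map hcm.aemeasurable hmK
  have key : ∀ (t : ℤ) (y : YS) (k : ℕ × Bool) (n : ℕ),
      (if n = m (cm ⟨shY t y.1, shY_mem t y.2⟩) k.1 then shY t y.1 k else emp k) =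
        sh (t : ZMod (r k)) (if n = m (cm y) k.1 then y.1 k else emp k) := by
    intro t y k n
    rw [cm_shY]
    split_ifs
    · rfl
    · simp
  have hAm : MeasurableSet {y : YS | (cm y, m (cm y)) ∈ K} :=
    (hcm.prodMk (hm.comp hcm)) hK.measurableSet
  have hinv : ∀ (t : ℤ) (y : YS), (cm y, m (cm y)) ∈ K →
      (cm ⟨shY t y.1, shY_mem t y.2⟩, m (cm ⟨shY t y.1, shY_mem t y.2⟩)) ∈ K := by
    intro t y hy
    rw [cm_shY]; exact hy
  have hR : ∀ y : YS, Rep (cm y) (m (cm y))
      (fun k n => if n = m (cm y) k.1 then y.1 k else emp k) := by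
    intro y j b n
    show (if n = m (cm y) j then y.1 (j, b) else emp (j, b)) ≠ emp (j, b) ↔ _
    by_cases hn : n = m (cm y) j
    · rw [if_pos hn, cm_iff]
      exact ⟨fun h => ⟨h, hn⟩, fun h => h.1⟩
    · rw [if_neg hn]
      constructor
      · intro h; exact absurd rfl h
      · intro h; exact absurd h.2 hn
  refine ⟨{y : YS | (cm y, m (cm y)) ∈ K}, hAm, fun i y hy => hinv _ y hy, hmK', ?_⟩
  refine ⟨fun y => ⟨fun k n => if n = m (cm y.1) k.1 then y.1.1 k else emp k,
    subset_closure ⟨cm y.1, m (cm y.1), y.2, hR y.1⟩⟩, ⟨?_, ?_⟩, ?_⟩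
  · refine Measurable.subtype_mk ?_
    refine measurable_pi_lambda _ fun k => measurable_pi_lambda _ fun n => ?_
    have h1 : Measurable (fun y : {y : YS | (cm y, m (cm y)) ∈ K} => m (cm y.1) k.1) :=
      (measurable_pi_apply k.1).comp (hm.comp (hcm.comp measurable_subtype_coe))
    have h2 : Measurable (fun y : {y : YS | (cm y, m (cm y)) ∈ K} => y.1.1 k) :=
      (measurable_pi_apply k).comp (measurable_subtype_coe.comp measurable_subtype_coe)
    refine Measurable.ite ?_ h2 measurable_const
    exact measurableSet_eq_fun measurable_const h1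
  · rintro i ⟨y, hy⟩ ⟨y', hy'⟩ h
    have h' : y' = ⟨shY (i ⟨0, hd⟩) y.1, shY_mem _ y.2⟩ := h
    subst h'
    apply Subtype.ext
    funext k n
    exact key _ y k n
  · rintro ⟨y, hy⟩ ⟨y', hy'⟩ h
    have h0 := congrArg Subtype.val h
    have h1 : ∀ k n, (if n = m (cm y) k.1 then y.1 k else emp k) =
        (if n = m (cm y') k.1 then y'.1 k else emp k) := fun k n => congrFun (congrFun h0 k) n
    have h2 : ∀ k (a : ZMod (r k)), y.1 k = ful a → y'.1 k = ful a := by
      intro k a ha
      have h3 := h1 k (m (cm y) k.1)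
      rw [if_pos rfl, ha] at h3
      split_ifs at h3 with h4
      · exact h3.symm
      · exact absurd h3 (ful_ne_emp a)
    have h2' : ∀ k (a : ZMod (r k)), y'.1 k = ful a → y.1 k = ful a := by
      intro k a ha
      have h3 := h1 k (m (cm y') k.1)
      rw [if_pos rfl, ha] at h3
      split_ifs at h3 with h4
      · exact h3
      · exact absurd h3.symm (ful_ne_emp a)
    apply Subtype.ext
    apply Subtype.ext
    funext k
    rcases eq_emp_or (y.1 k) with h5 | ⟨a, h5⟩
    · rcases eq_emp_or (y'.1 k) with h6 | ⟨a, h6⟩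
      · exact h5.trans h6.symm
      · exact (h2' k a h6).trans h6.symm
    · exact h5.trans (h2 k a h5).symm

lemma measurable_pic2 : Measurable (fun p : (ℕ → Bool) × Om => pic p.1 p.2) := by
  refine Measurable.subtype_mk ?_
  refine measurable_pi_lambda _ fun k => ?_
  have h1 : Measurable (fun p : (ℕ → Bool) × Om => (p.1 k.1, p.2 k)) :=
    ((measurable_pi_apply k.1).comp measurable_fst).prodMk
      ((measurable_pi_apply k).comp measurable_snd)
  have h2 : Measurable (fun p : Bool × ZMod (r k) => (if k.2 = p.1 then ful p.2 else emp k : V k)) :=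
    measurable_of_countable _
  exact h2.comp h1

/-- there is no almost Borel embedding -/
theorem no_embed (herg : StmErg) {d : ℕ} (hd : 1 ≤ d) (K : Set ((ℕ → Bool) × (ℕ → ℕ)))
    (hK : IsClosed K)
    (hno : ∀ m : (ℕ → Bool) → (ℕ → ℕ), Measurable m → ∃ c, (c, m c) ∉ K) :
    ¬ AlmostBorelEmbeds (SY hd) (SX hd K) := by
  rintro ⟨A, hAm, hAinv, hfull, ρ, ⟨hρm, hρe⟩, hρi⟩
  obtain ⟨μ, hμ, hinv, he⟩ := herg r r_prime r_inj
  classical
  let F : YS → Xi := fun y => if h : y ∈ (A : Set YS) then (ρ ⟨y, h⟩ : XS K).1 else fun k _ => emp k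
  have hF : Measurable F := by
    have h1 : @Measurable A Xi _ _ (fun y => (ρ y : XS K).1) :=
      (measurable_subtype_coe (p := fun x => x ∈ XS K)).comp hρm
    exact Measurable.dite h1 measurable_const hAm
  have hFA : ∀ (y : YS) (h : y ∈ (A : Set YS)), F y = (ρ ⟨y, h⟩ : XS K).1 := by
    intro y h
    exact dif_pos h
  have hpict : ∀ (c : ℕ → Bool) (t : ℤ) (ω : Om), pic c (ω + fun k => (t : ZMod (r k))) =
      ⟨shY t (pic c ω).1, shY_mem t (pic c ω).2⟩ := by
    intro c t ω
    apply Subtype.ext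
    exact pif_add_one c ω t
  have hA : ∀ c, ∀ᵐ ω ∂μ, pic c ω ∈ (A : Set YS) := by
    intro c
    have hmp : Measurable (pic c) := measurable_pic c
    have hmap : ∀ t : ℤ, (μ.map (pic c)).map (fun y : YS => (⟨shY t y.1, shY_mem t y.2⟩ : YS)) =
        μ.map (pic c) := by
      intro t
      have hact : Measurable (fun y : YS => (⟨shY t y.1, shY_mem t y.2⟩ : YS)) :=
        (((shY_continuous t).comp continuous_subtype_val).subtype_mk _).measurable
      rw [Measure.map_map hact hmp]
      have h2 : (fun y : YS => (⟨shY t y.1, shY_mem t y.2⟩ : YS)) ∘ (pic c) =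
          (pic c) ∘ (fun ω : Om => ω + fun k => (t : ZMod (r k))) := by
        funext ω
        exact (hpict c t ω).symm
      rw [h2, ← Measure.map_map hmp (measurable_add _), hinv]
    have hprob : IsProbabilityMeasure (μ.map (pic c)) :=
      Measure.isProbabilityMeasure_map hmp.aemeasurable
    have h3 := hfull (μ.map (pic c)) ⟨hprob, fun i => hmap (i ⟨0, hd⟩)⟩
    have h4 : ∀ᵐ y ∂(μ.map (pic c)), y ∈ (A : Set YS) := h3
    exact ae_of_ae_map hmp.aemeasurable h4
  have hcore : ∀ c, ∃ m : ℕ → ℕ, ∀ᵐ ω ∂μ, Rep c m (F (pic c ω)) := by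
    intro c
    refine core μ hinv he K c A F hF (hA c) ?_ ?_ ?_
    · intro y hy
      rw [hFA y hy]
      exact (ρ ⟨y, hy⟩ : XS K).2
    · intro ω hω
      have h1 : pic c (ω + 1) = ⟨shY 1 (pic c ω).1, shY_mem 1 (pic c ω).2⟩ := by
        rw [← hpict c 1 ω]
        congr 1
        funext k
        simp
      have h2 : (⟨shY 1 (pic c ω).1, shY_mem 1 (pic c ω).2⟩ : YS) ∈ (A : Set YS) :=
        hAinv (fun _ => 1) (pic c ω) hω
      rw [h1, hFA _ h2, hFA _ hω]
      have h3 := hρe (fun _ => 1) ⟨pic c ω, hω⟩ ⟨_, h2⟩ rfl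
      rw [h3]
      rfl
    · intro y hy y' hy' h
      rw [hFA y hy, hFA y' hy'] at h
      have h1 := hρi (Subtype.ext h : (ρ ⟨y, hy⟩ : XS K) = ρ ⟨y', hy'⟩)
      exact congrArg Subtype.val h1
  choose m hm using hcore
  have hmm : Measurable m := by
    refine measurable_pi_lambda _ fun j => measurable_to_countable' fun n => ?_
    have hE : MeasurableSet {p : (ℕ → Bool) × Om | F (pic p.1 p.2) (j, true) n ≠ emp (j, true) ∨
        F (pic p.1 p.2) (j, false) n ≠ emp (j, false)} := by
      have h1 : ∀ b, MeasurableSet {p : (ℕ → Bool) × Om | F (pic p.1 p.2) (j, b) n ≠ emp (j, b)} := by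
        intro b
        have h2 : Measurable (fun p : (ℕ → Bool) × Om => F (pic p.1 p.2) (j, b) n) :=
          (measurable_pi_apply n).comp ((measurable_pi_apply (j, b)).comp (hF.comp measurable_pic2))
        exact h2 (MeasurableSet.of_discrete (s := {v : V (j, b) | v ≠ emp (j, b)}))
      exact (h1 true).union (h1 false)
    have hset : (fun c => m c j) ⁻¹' {n} = {c | μ (Prod.mk c ⁻¹' {p : (ℕ → Bool) × Om |
        F (pic p.1 p.2) (j, true) n ≠ emp (j, true) ∨
        F (pic p.1 p.2) (j, false) n ≠ emp (j, false)}) ≠ 0} := by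
      ext c
      have hae : ∀ᵐ ω ∂μ, (F (pic c ω) (j, true) n ≠ emp (j, true) ∨
          F (pic c ω) (j, false) n ≠ emp (j, false)) ↔ n = m c j := by
        filter_upwards [hm c] with ω hω
        rw [hω j true n, hω j false n]
        cases c j <;> simp
      simp only [Set.mem_preimage, Set.mem_singleton_iff, Set.mem_ofPred_eq]
      constructor
      · intro h hzero
        have h1 : ∀ᵐ ω ∂μ, ¬ (F (pic c ω) (j, true) n ≠ emp (j, true) ∨
          F (pic c ω) (j, false) n ≠ emp (j, false)) := by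
          rw [ae_iff]
          simp only [not_not]
          exact hzero
        obtain ⟨ω, hω1, hω2⟩ := (hae.and h1).exists
        exact hω2 (hω1.mpr h.symm)
      · intro h
        by_contra hne
        apply h
        have h1 : ∀ᵐ ω ∂μ, ¬ (F (pic c ω) (j, true) n ≠ emp (j, true) ∨
          F (pic c ω) (j, false) n ≠ emp (j, false)) := by
          filter_upwards [hae] with ω hω h2
          exact hne (hω.mp h2).symm
        rw [ae_iff] at h1
        simp only [not_not] at h1
        exact h1
    rw [hset]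
    exact (measurable_measure_prodMk_left hE) (measurableSet_singleton 0).compl
  obtain ⟨c, hc⟩ := hno m hmm
  obtain ⟨ω, hω1, hω2⟩ := ((hA c).and (hm c)).exists
  apply hc
  refine mem_of_rep hK ?_ hω2
  rw [hFA _ hω1]
  exact (ρ ⟨_, hω1⟩ : XS K).2

theorem main (hsel : StmSel) (huni : StmUni) (herg : StmErg) (d : ℕ) (hd : 1 ≤ d) :
    ∃ X Y : TopSystem d, (∀ μ : Measure Y.carrier, IsInvariantMeasure Y μ → Realized Y X μ) ∧
      ¬ AlmostBorelEmbeds Y X := by
  obtain ⟨K, hK, hfull, hno⟩ := huni
  exact ⟨SX hd K, SY hd, fun μ hμ => realize hsel hd K hK hfull μ hμ.1, no_embed herg hd K hK hno⟩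

end Pool.Agent.R508.AB
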