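import Pool.Agent.R508.AB.Stm
import Pool.Agent.H894R3.Ana

/-!
# Project AB, piece SEL (helper33)
-/

namespace Pool.Agent.R508.AB

open MeasureTheory Set Filter Topology

namespace Sel

/-- the sequence of prefixes -/
noncomputable def st (A : List ℕ → Set (ℕ → Bool)) (c : ℕ → Bool) : ℕ → List ℕ
  | 0 => []
  | k + 1 => st A c k ++ [sInf {n | c ∈ A (st A c k ++ [n])}]

/-- the selected point -/
noncomputable def mm (A : List ℕ → Set (ℕ → Bool)) (c : ℕ → Bool) (k : ℕ) : ℕ :=
  sInf {n | c ∈ A (st A c k ++ [n])}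

lemma st_succ (A : List ℕ → Set (ℕ → Bool)) (c : ℕ → Bool) (k : ℕ) :
    st A c (k + 1) = st A c k ++ [mm A c k] := rfl

lemma st_eq (A : List ℕ → Set (ℕ → Bool)) (c : ℕ → Bool) (k : ℕ) :
    st A c k = (List.range k).map (mm A c) := by
  induction k with
  | zero => rfl
  | succ k ih => rw [st_succ, List.range_succ, List.map_append, ← ih]; rfl

lemma measurable_sInf' (B : ℕ → Set (ℕ → Bool)) (hB : ∀ n, MeasurableSet (B n)) :
    Measurable (fun c : ℕ → Bool => sInf {n | c ∈ B n}) := by
  classical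
  refine measurable_to_nat fun c0 => ?_
  have : (fun c : ℕ → Bool => sInf {n | c ∈ B n}) ⁻¹' {sInf {n | c0 ∈ B n}} =
      (B (sInf {n | c0 ∈ B n}) ∩ ⋂ j, ⋂ (_ : j < sInf {n | c0 ∈ B n}), (B j)ᶜ) ∪
        ({_c : ℕ → Bool | sInf {n | c0 ∈ B n} = 0} ∩ ⋂ j, (B j)ᶜ) := by
    ext c
    simp only [mem_preimage, mem_singleton_iff, mem_union, mem_inter_iff, mem_iInter,
      mem_compl_iff, mem_ofPred_eq]
    constructor
    · intro h
      by_cases hne : ∃ n, c ∈ B n
      · left
        rw [← h]
        exact ⟨Nat.sInf_mem (s := {n | c ∈ B n}) hne, fun j hj hjB =>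
          absurd (Nat.sInf_le (s := {n | c ∈ B n}) hjB) (not_le.mpr hj)⟩
      · right
        push Not at hne
        refine ⟨?_, hne⟩
        rw [← h]
        have : {n | c ∈ B n} = ∅ := by
          ext n
          simp [hne n]
        rw [this, Nat.sInf_empty]
    · rintro (⟨h1, h2⟩ | ⟨h1, h2⟩)
      · refine le_antisymm (Nat.sInf_le (s := {n | c ∈ B n}) h1) ?_
        by_contra hlt
        push Not at hlt
        exact h2 _ hlt (Nat.sInf_mem (s := {n | c ∈ B n}) ⟨_, h1⟩)
      · rw [h1]
        have : {n | c ∈ B n} = ∅ := by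
          ext n
          simp [h2 n]
        rw [this, Nat.sInf_empty]
  rw [this]
  refine MeasurableSet.union ?_ ?_
  · exact (hB _).inter (MeasurableSet.iInter fun j => MeasurableSet.iInter fun _ => (hB j).compl)
  · exact (MeasurableSet.const _).inter (MeasurableSet.iInter fun j => (hB j).compl)

lemma meas_st (A : List ℕ → Set (ℕ → Bool)) (hA : ∀ s, MeasurableSet (A s)) (k : ℕ) :
    ∀ t, MeasurableSet {c | st A c k = t} := by
  induction k with
  | zero =>
    intro t
    simp only [st]
    exact MeasurableSet.const _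
  | succ k ih =>
    intro t
    have : {c | st A c (k + 1) = t} = ⋃ s : List ℕ, ({c | st A c k = s} ∩
        (fun c => sInf {n | c ∈ A (s ++ [n])}) ⁻¹' {n | s ++ [n] = t}) := by
      ext c
      simp only [mem_ofPred_eq, mem_iUnion, mem_inter_iff, mem_preimage]
      constructor
      · intro h
        exact ⟨st A c k, rfl, h⟩
      · rintro ⟨s, rfl, h⟩
        exact h
    rw [this]
    exact MeasurableSet.iUnion fun s => (ih s).inter
      (measurable_sInf' _ (fun n => hA (s ++ [n])) (MeasurableSet.of_discrete))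

lemma meas_mm (A : List ℕ → Set (ℕ → Bool)) (hA : ∀ s, MeasurableSet (A s)) :
    Measurable (mm A) := by
  rw [measurable_pi_iff]
  intro k
  refine measurable_to_nat fun c0 => ?_
  have : (fun c => mm A c k) ⁻¹' {mm A c0 k} = ⋃ s : List ℕ, ({c | st A c k = s} ∩
      (fun c => sInf {n | c ∈ A (s ++ [n])}) ⁻¹' {mm A c0 k}) := by
    ext c
    simp only [mem_ofPred_eq, mem_iUnion, mem_inter_iff, mem_preimage]
    constructor
    · intro h
      exact ⟨st A c k, rfl, h⟩
    · rintro ⟨s, rfl, h⟩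
      exact h
  rw [this]
  exact MeasurableSet.iUnion fun s => (meas_st A hA k s).inter
    (measurable_sInf' _ (fun n => hA (s ++ [n])) (MeasurableSet.of_discrete))

/-- the points with a witness extending `s` -/
def P (K : Set ((ℕ → Bool) × (ℕ → ℕ))) (s : List ℕ) : Set (ℕ → Bool) :=
  {c | ∃ m, (c, m) ∈ K ∧ ∀ i < s.length, m i = s.getD i 0}

lemma P_analytic (K : Set ((ℕ → Bool) × (ℕ → ℕ))) (hK : IsClosed K) (s : List ℕ) :
    AnalyticSet (P K s) := by
  have h : P K s = Prod.fst '' (K ∩ ⋂ i, ⋂ (_ : i < s.length), {p | p.2 i = s.getD i 0}) := by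
    ext c
    constructor
    · rintro ⟨m, hm, h⟩
      refine ⟨(c, m), ⟨hm, ?_⟩, rfl⟩
      simp only [mem_iInter]
      exact h
    · rintro ⟨⟨c', m⟩, ⟨hm, h⟩, rfl⟩
      simp only [mem_iInter] at h
      exact ⟨m, hm, h⟩
  rw [h]
  refine MeasurableSet.analyticSet_image ?_ measurable_fst
  refine hK.measurableSet.inter (MeasurableSet.iInter fun i => MeasurableSet.iInter fun _ => ?_)
  have hm : Measurable (fun p : (ℕ → Bool) × (ℕ → ℕ) => p.2 i) :=
    (measurable_pi_apply i).comp measurable_snd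
  exact hm (measurableSet_singleton (s.getD i 0))

lemma P_step (K : Set ((ℕ → Bool) × (ℕ → ℕ))) (s : List ℕ) (c : ℕ → Bool) (h : c ∈ P K s) :
    ∃ n, c ∈ P K (s ++ [n]) := by
  obtain ⟨m, hm, h⟩ := h
  refine ⟨m s.length, m, hm, fun i hi => ?_⟩
  rw [List.length_append, List.length_singleton] at hi
  rcases Nat.lt_succ_iff_lt_or_eq.mp hi with hi' | rfl
  · rw [List.getD_append _ _ _ _ hi']
    exact h i hi'
  · rw [List.getD_append_right _ _ _ _ le_rfl]
    simp

end Sel

open Sel in
theorem sel : StmSel := by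
  intro K hK hfull ν _
  have hnull : ∀ s, NullMeasurableSet (P K s) ν := fun s =>
    Pool.Agent.H894R3.Ana.analytic_nullMeasurable ν (P_analytic K hK s)
  choose A hAsub hAm hAe using fun s => (hnull s).exists_measurable_superset_ae_eq
  refine ⟨mm A, meas_mm A hAm, ?_⟩
  have hall : ∀ᵐ c ∂ν, ∀ s, (c ∈ A s ↔ c ∈ P K s) := by
    rw [ae_all_iff]
    intro s
    filter_upwards [hAe s] with c hc
    exact Iff.of_eq hc
  filter_upwards [hall] with c hc
  have hk : ∀ k, c ∈ P K (st A c k) := by
    intro k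
    induction k with
    | zero =>
      obtain ⟨m, hm⟩ := hfull c
      exact ⟨m, hm, fun i hi => by simp [st] at hi⟩
    | succ k ih =>
      obtain ⟨n, hn⟩ := P_step K _ c ih
      have hne : {n | c ∈ A (st A c k ++ [n])}.Nonempty := ⟨n, (hc _).mpr hn⟩
      have := Nat.sInf_mem hne
      rw [st_succ]
      exact (hc _).mp this
  choose m hmK hm using hk
  have hlim : Tendsto m atTop (𝓝 (mm A c)) := by
    rw [tendsto_pi_nhds]
    intro i
    refine tendsto_const_nhds.congr' ?_
    filter_upwards [eventually_gt_atTop i] with k hki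
    have h1 := hm k i (by rw [st_eq]; simpa using hki)
    rw [h1, st_eq]
    simp [List.getD_eq_getElem?_getD, hki]
  have hlim2 : Tendsto (fun k => (c, m k)) atTop (𝓝 (c, mm A c)) :=
    tendsto_const_nhds.prodMk_nhds hlim
  exact hK.mem_of_tendsto hlim2 (Eventually.of_forall hmK)

end Pool.Agent.R508.AB
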