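import Pool.Agent.R508.AB.Defs

/-!
# The two systems
-/

namespace Pool.Agent.R508.AB

open MeasureTheory Topology

lemma shX_continuous (t : ℤ) : Continuous (shX t) := by
  unfold shX
  refine continuous_pi fun k => continuous_pi fun n => ?_
  exact (continuous_of_discreteTopology (f := sh (k := k) (t : ZMod (r k)))).comp
    ((continuous_apply n).comp (continuous_apply k))

lemma shY_continuous (t : ℤ) : Continuous (shY t) := by
  unfold shY
  refine continuous_pi fun k => ?_
  exact (continuous_of_discreteTopology (f := sh (k := k) (t : ZMod (r k)))).comp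
    (continuous_apply k)

lemma shX_zero (x : Xi) : shX 0 x = x := by
  funext k n; simp [shX]

lemma shY_zero (x : Ya) : shY 0 x = x := by
  funext k; simp [shY]

lemma shX_add (s t : ℤ) (x : Xi) : shX (s + t) x = shX s (shX t x) := by
  funext k n; simp [shX, sh_sh]

lemma shY_add (s t : ℤ) (x : Ya) : shY (s + t) x = shY s (shY t x) := by
  funext k; simp [shY, sh_sh]

lemma rep_shX {c : ℕ → Bool} {m : ℕ → ℕ} {x : Xi} (t : ℤ) (h : Rep c m x) : Rep c m (shX t x) := by
  intro j b n
  rw [← h j b n]
  exact not_congr (sh_eq_emp _ _)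

lemma shX_mem {K : Set ((ℕ → Bool) × (ℕ → ℕ))} (t : ℤ) {x : Xi} (h : x ∈ XS K) :
    shX t x ∈ XS K := by
  have h1 : shX t '' closure (RS K) ⊆ closure (shX t '' RS K) :=
    image_closure_subset_closure_image (shX_continuous t)
  have h2 : shX t '' RS K ⊆ RS K := by
    rintro _ ⟨y, ⟨c, m, hK, hR⟩, rfl⟩
    exact ⟨c, m, hK, rep_shX t hR⟩
  exact closure_mono h2 (h1 ⟨x, h, rfl⟩)

lemma shY_mem (t : ℤ) {y : Ya} (h : y ∈ YS) : shY t y ∈ YS := by
  intro j
  have := h j
  unfold shY
  rw [sh_eq_emp, Ne, sh_eq_emp]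
  exact this

lemma YS_closed : IsClosed YS := by
  have : YS = ⋂ j : ℕ, {y : Ya | (y (j, true) = emp (j, true) ↔ y (j, false) ≠ emp (j, false))} := by
    ext y; simp [YS]
  rw [this]
  refine isClosed_iInter fun j => ?_
  have h : IsClosed ((fun y : Ya => (y (j, true), y (j, false))) ⁻¹'
      {p : V (j, true) × V (j, false) | (p.1 = emp (j, true) ↔ p.2 ≠ emp (j, false))}) := by
    refine IsClosed.preimage ?_ (isClosed_discrete _)
    exact (continuous_apply _).prodMk (continuous_apply _)
  exact h

instance (K : Set ((ℕ → Bool) × (ℕ → ℕ))) : CompactSpace (XS K) :=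
  isCompact_iff_compactSpace.mp isClosed_closure.isCompact

instance : CompactSpace YS := isCompact_iff_compactSpace.mp YS_closed.isCompact

instance : TopologicalSpace.MetrizableSpace Xi := inferInstance
instance : TopologicalSpace.MetrizableSpace Ya := inferInstance

/-- General construction. -/
noncomputable def mkSys {d : ℕ} (hd : 1 ≤ d) (Z : Type) [TopologicalSpace Z] [CompactSpace Z]
    [TopologicalSpace.MetrizableSpace Z] [MeasurableSpace Z] [BorelSpace Z] (a : ℤ → Z → Z)
    (a0 : ∀ x, a 0 x = x) (aadd : ∀ s t x, a (s + t) x = a s (a t x))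
    (ac : ∀ t, Continuous (a t)) : TopSystem d where
  carrier := Z
  metric := TopologicalSpace.metrizableSpaceMetric Z
  compact := ‹CompactSpace Z›
  meas := ‹MeasurableSpace Z›
  borel := ‹BorelSpace Z›
  act i := a (i ⟨0, hd⟩)
  act_zero x := a0 x
  act_add i j x := aadd _ _ x
  continuous_act i := ac _

/-- the system `X` -/
noncomputable def SX {d : ℕ} (hd : 1 ≤ d) (K : Set ((ℕ → Bool) × (ℕ → ℕ))) : TopSystem d :=
  mkSys hd (XS K) (fun t x => ⟨shX t x.1, shX_mem t x.2⟩)
    (fun x => Subtype.ext (shX_zero x.1)) (fun s t x => Subtype.ext (shX_add s t x.1))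
    (fun t => ((shX_continuous t).comp continuous_subtype_val).subtype_mk _)

/-- the system `Y` -/
noncomputable def SY {d : ℕ} (hd : 1 ≤ d) : TopSystem d :=
  mkSys hd YS (fun t x => ⟨shY t x.1, shY_mem t x.2⟩)
    (fun x => Subtype.ext (shY_zero x.1)) (fun s t x => Subtype.ext (shY_add s t x.1))
    (fun t => ((shY_continuous t).comp continuous_subtype_val).subtype_mk _)

end Pool.Agent.R508.AB
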