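import Pool.Agent.R508.AB.Stm

/-!
# AB-UNI (helper139): a closed set with full projection and without Borel uniformization
-/

set_option autoImplicit false

namespace Pool.Agent.R508.AB

open MeasureTheory Filter Topology Encodable

namespace Uni

/-- the first `k` terms -/
def res {β : Type} (y : ℕ → β) (k : ℕ) : List β := (List.range k).map y

theorem length_res {β : Type} (y : ℕ → β) (k : ℕ) : (res y k).length = k := by
  simp [res]

theorem take_res {β : Type} (y : ℕ → β) (k j : ℕ) (h : j ≤ k) :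
    (res y k).take j = res y j := by
  unfold res
  rw [← List.map_take, List.take_range, min_eq_left h]

theorem res_succ {β : Type} (y : ℕ → β) (k : ℕ) : res y (k + 1) = res y k ++ [y k] := by
  simp [res, List.range_succ]

theorem res_eq_iff {β : Type} (y y' : ℕ → β) (k : ℕ) :
    res y k = res y' k ↔ ∀ i < k, y i = y' i := by
  unfold res
  rw [List.map_inj_left]
  simp

/-! ### Codes of analytic sets -/

theorem rep (W : Set (ℕ → Bool)) (hW : AnalyticSet W) :
    ∃ z : List Bool → List ℕ → Bool, ∀ c, c ∈ W ↔ ∃ y : ℕ → ℕ, ∀ j k,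
      z (res c k) (res y j) = false := by
  classical
  rw [AnalyticSet] at hW
  rcases hW with hW | ⟨f, hf, hr⟩
  · refine ⟨fun _ _ => true, fun c => ?_⟩
    subst hW
    simp
  · refine ⟨fun a s => decide (¬ ∃ y, res y s.length = s ∧ res (f y) a.length = a), fun c => ?_⟩
    constructor
    · intro hc
      rw [← hr] at hc
      obtain ⟨y, rfl⟩ := hc
      refine ⟨y, fun j k => ?_⟩
      rw [decide_eq_false_iff_not, not_not]
      exact ⟨y, by rw [length_res], by rw [length_res]⟩
    · rintro ⟨y, hy⟩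
      rw [← hr]
      refine ⟨y, ?_⟩
      funext i
      have h1 : ∀ j, ∃ y', res y' j = res y j ∧ res (f y') (i + 1) = res c (i + 1) := by
        intro j
        have := hy j (i + 1)
        rw [decide_eq_false_iff_not, not_not] at this
        simpa only [length_res] using this
      choose u hu1 hu2 using h1
      have hlim : Tendsto u atTop (𝓝 y) := by
        rw [tendsto_pi_nhds]
        intro n
        refine tendsto_const_nhds.congr' ?_
        filter_upwards [eventually_gt_atTop n] with j hj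
        exact ((res_eq_iff _ _ _).1 (hu1 j) n hj).symm
      have hlim2 : Tendsto (fun j => f (u j) i) atTop (𝓝 (f y i)) :=
        ((continuous_apply i).tendsto _).comp ((hf.tendsto y).comp hlim)
      have hconst : (fun j => f (u j) i) = fun _ => c i := by
        funext j
        exact (res_eq_iff _ _ _).1 (hu2 j) i (Nat.lt_succ_self i)
      rw [hconst] at hlim2
      exact tendsto_nhds_unique hlim2 tendsto_const_nhds |>.symm ▸ rfl

/-! ### The trees -/

/-- the tree with number `i` at `c` -/
def Tree (c : ℕ → Bool) (i : Bool) : Set (List ℕ) :=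
  {s | ∀ j ≤ s.length, ∀ k ≤ s.length, c (encode (i, res c k, s.take j)) = false}

theorem tree_prefix {c : ℕ → Bool} {i : Bool} {s : List ℕ} {n : ℕ} (h : s ++ [n] ∈ Tree c i) :
    s ∈ Tree c i := by
  intro j hj k hk
  have h1 := h j (by simp; omega) k (by simp; omega)
  rwa [List.take_append_of_le_length hj] at h1

theorem tree_nil {c : ℕ → Bool} {i : Bool} {s : List ℕ} (h : s ∈ Tree c i) : [] ∈ Tree c i := by
  intro j hj k hk
  have h1 := h 0 (Nat.zero_le _) 0 (Nat.zero_le _)
  simp only [List.length_nil, Nat.le_zero] at hj hk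
  subst hj
  subst hk
  simpa using h1

theorem branch_iff (c : ℕ → Bool) (i : Bool) (y : ℕ → ℕ) :
    (∀ n, res y n ∈ Tree c i) ↔ ∀ j k, c (encode (i, res c k, res y j)) = false := by
  constructor
  · intro h j k
    have h1 := h (max j k) j (by rw [length_res]; exact le_max_left _ _) k
      (by rw [length_res]; exact le_max_right _ _)
    rwa [take_res _ _ _ (le_max_left _ _)] at h1
  · intro h n j hj k hk
    rw [length_res] at hj
    rw [take_res _ _ _ hj]
    exact h j k

/-- the code of two sets -/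
def code (z w : List Bool → List ℕ → Bool) : ℕ → Bool := fun n =>
  match (decode n : Option (Bool × List Bool × List ℕ)) with
  | some (i, a, s) => cond i (w a s) (z a s)
  | none => false

theorem code_encode (z w : List Bool → List ℕ → Bool) (i : Bool) (a : List Bool) (s : List ℕ) :
    code z w (encode (i, a, s)) = cond i (w a s) (z a s) := by
  unfold code
  rw [encodek]

/-! ### The closed set -/

/-- the answers of the second player -/
def Phi (m : ℕ → ℕ) (s : List ℕ) : List ℕ :=
  (List.range s.length).map fun i => m (encode (s.take (i + 1)) + 1)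

/-- the moves of the first player -/
def Psi (m : ℕ → ℕ) (t : List ℕ) : List ℕ :=
  (List.range (t.length + 1)).map fun i => m (encode (t.take i) + 1)

theorem Phi_res (m y : ℕ → ℕ) (n : ℕ) :
    Phi m (res y n) = res (fun i => m (encode (res y (i + 1)) + 1)) n := by
  unfold Phi
  rw [length_res]
  refine List.map_congr_left fun i hi => ?_
  rw [take_res _ _ _ (List.mem_range.1 hi)]

theorem Psi_res (m y : ℕ → ℕ) (n : ℕ) :
    Psi m (res y n) = res (fun i => m (encode (res y i) + 1)) (n + 1) := by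
  unfold Psi
  rw [length_res]
  refine List.map_congr_left fun i hi => ?_
  rw [take_res _ _ _ (Nat.lt_succ_iff.1 (List.mem_range.1 hi))]

theorem Phi_snoc (m : ℕ → ℕ) (s : List ℕ) (n : ℕ) :
    Phi m (s ++ [n]) = Phi m s ++ [m (encode (s ++ [n]) + 1)] := by
  unfold Phi
  rw [List.length_append, List.length_singleton, List.range_succ, List.map_append]
  congr 1
  · refine List.map_congr_left fun i hi => ?_
    rw [List.take_append_of_le_length (List.mem_range.1 hi)]
  · simp only [List.map_cons, List.map_nil]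
    rw [List.take_of_length_le (by simp)]

theorem Psi_snoc (m : ℕ → ℕ) (s : List ℕ) (n : ℕ) :
    Psi m (s ++ [n]) = Psi m s ++ [m (encode (s ++ [n]) + 1)] := by
  unfold Psi
  rw [List.length_append, List.length_singleton, List.range_succ, List.map_append]
  congr 1
  · refine List.map_congr_left fun i hi => ?_
    rw [List.take_append_of_le_length (Nat.lt_succ_iff.1 (List.mem_range.1 hi))]
  · simp only [List.map_cons, List.map_nil]
    rw [List.take_of_length_le (by simp)]

def K : Set ((ℕ → Bool) × (ℕ → ℕ)) :=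
  {x | ∀ s : List ℕ, (x.2 0 = 0 → s ∈ Tree x.1 false → Phi x.2 s ∈ Tree x.1 true) ∧
    (x.2 0 ≠ 0 → s ∈ Tree x.1 true → Psi x.2 s ∈ Tree x.1 false)}

/-- locally constant functions -/
def LC {β : Type} (f : (ℕ → Bool) × (ℕ → ℕ) → β) : Prop := ∀ x, ∀ᶠ x' in 𝓝 x, f x' = f x

theorem lc_const {β : Type} (b : β) : LC fun _ => b := fun _ => Eventually.of_forall fun _ => rfl

theorem lc_fst (i : ℕ) : LC fun x => x.1 i := by
  intro x
  have h : Continuous fun x : (ℕ → Bool) × (ℕ → ℕ) => x.1 i := by fun_prop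
  exact h.continuousAt.eventually ((isOpen_discrete {x.1 i}).mem_nhds rfl)

theorem lc_snd (i : ℕ) : LC fun x => x.2 i := by
  intro x
  have h : Continuous fun x : (ℕ → Bool) × (ℕ → ℕ) => x.2 i := by fun_prop
  exact h.continuousAt.eventually ((isOpen_discrete {x.2 i}).mem_nhds rfl)

theorem LC.map {β γ : Type} {f : (ℕ → Bool) × (ℕ → ℕ) → β} (hf : LC f) (g : β → γ) :
    LC fun x => g (f x) := fun x => (hf x).mono fun _ h => congrArg g h

theorem LC.map₂ {β β' γ : Type} {f : (ℕ → Bool) × (ℕ → ℕ) → β}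
    {f' : (ℕ → Bool) × (ℕ → ℕ) → β'} (hf : LC f) (hf' : LC f') (g : β → β' → γ) :
    LC fun x => g (f x) (f' x) := fun x => by
  filter_upwards [hf x, hf' x] with x' h h'
  rw [h, h']

theorem lc_fst_at {f : (ℕ → Bool) × (ℕ → ℕ) → ℕ} (hf : LC f) : LC fun x => x.1 (f x) := by
  intro x
  filter_upwards [hf x, lc_fst (f x) x] with x' h h'
  rw [h, h']

theorem lc_list {β : Type} (k : ℕ) {f : ℕ → (ℕ → Bool) × (ℕ → ℕ) → β} (hf : ∀ i, LC (f i)) :
    LC fun x => (List.range k).map fun i => f i x := by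
  induction k with
  | zero => exact lc_const []
  | succ k ih =>
    simp only [List.range_succ, List.map_append, List.map_cons, List.map_nil]
    exact ih.map₂ (hf k) fun l b => l ++ [b]

theorem lc_all (n : ℕ) {f : ℕ → (ℕ → Bool) × (ℕ → ℕ) → Prop} (hf : ∀ i, LC (f i)) :
    LC fun x => ∀ i ≤ n, f i x := by
  intro x
  have h : ∀ᶠ x' in 𝓝 x, ∀ i ∈ Set.Iic n, f i x' = f i x :=
    (eventually_all_finite (Set.finite_Iic n)).2 fun i _ => hf i x
  filter_upwards [h] with x' hx'
  refine propext (forall_congr' fun i => ?_)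
  constructor
  · intro h hi
    rw [← hx' i hi]
    exact h hi
  · intro h hi
    rw [hx' i hi]
    exact h hi

/-- membership of a locally constant list of bounded length in a tree -/
theorem lc_tree {l : (ℕ → Bool) × (ℕ → ℕ) → List ℕ} (hl : LC l) (i : Bool) :
    LC fun x => l x ∈ Tree x.1 i := by
  have key : ∀ s : List ℕ, LC fun x => s ∈ Tree x.1 i := by
    intro s
    refine lc_all _ fun j => lc_all _ fun k => ?_
    have h1 : LC fun x : (ℕ → Bool) × (ℕ → ℕ) => res x.1 k := lc_list k fun n => lc_fst n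
    have h2 := lc_fst_at (h1.map fun r => encode (i, r, s.take j))
    exact h2.map fun b => b = false
  intro x
  filter_upwards [hl x, key (l x) x] with x' h h'
  rw [h]
  exact h'

theorem isClosed_of_lc {P : (ℕ → Bool) × (ℕ → ℕ) → Prop} (h : LC P) : IsClosed {x | P x} := by
  rw [← isOpen_compl_iff, isOpen_iff_eventually]
  intro x hx
  filter_upwards [h x] with x' hx'
  intro hc
  apply hx
  have : P x' := hc
  rw [hx'] at this
  exact this

theorem isClosed_K : IsClosed K := by
  have : K = ⋂ s : List ℕ, {x | (x.2 0 = 0 → s ∈ Tree x.1 false → Phi x.2 s ∈ Tree x.1 true) ∧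
      (x.2 0 ≠ 0 → s ∈ Tree x.1 true → Psi x.2 s ∈ Tree x.1 false)} := by
    ext x
    simp [K]
  rw [this]
  refine isClosed_iInter fun s => isClosed_of_lc ?_
  have h0 : LC fun x : (ℕ → Bool) × (ℕ → ℕ) => x.2 0 := lc_snd 0
  have hs : ∀ i, LC fun x : (ℕ → Bool) × (ℕ → ℕ) => s ∈ Tree x.1 i := fun i =>
    lc_tree (lc_const s) i
  have hP : LC fun x : (ℕ → Bool) × (ℕ → ℕ) => Phi x.2 s :=
    lc_list _ fun i => lc_snd _
  have hQ : LC fun x : (ℕ → Bool) × (ℕ → ℕ) => Psi x.2 s :=
    lc_list _ fun i => lc_snd _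
  have a1 := ((h0.map fun n => n = 0).map₂ ((hs false).map₂ (lc_tree hP true)
    fun p q => p → q) fun p q => p → q)
  have a2 := ((h0.map fun n => n ≠ 0).map₂ ((hs true).map₂ (lc_tree hQ false)
    fun p q => p → q) fun p q => p → q)
  exact a1.map₂ a2 fun p q => p ∧ q

/-! ### Full projection -/

section Sim

variable (S T : Set (List ℕ))

def IsSim (R : List ℕ → List ℕ → Prop) : Prop :=
  ∀ s t, R s t → ∀ n, s ++ [n] ∈ S → ∃ k, t ++ [k] ∈ T ∧ R (s ++ [n]) (t ++ [k])

def Sim (s t : List ℕ) : Prop := ∃ R, IsSim S T R ∧ R s t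

variable {S T}

theorem Sim.step {s t : List ℕ} (h : Sim S T s t) (n : ℕ) (hn : s ++ [n] ∈ S) :
    ∃ k, t ++ [k] ∈ T ∧ Sim S T (s ++ [n]) (t ++ [k]) := by
  obtain ⟨R, hR, hst⟩ := h
  obtain ⟨k, hk, hk'⟩ := hR s t hst n hn
  exact ⟨k, hk, R, hR, hk'⟩

theorem Sim.intro {s t : List ℕ}
    (h : ∀ n, s ++ [n] ∈ S → ∃ k, t ++ [k] ∈ T ∧ Sim S T (s ++ [n]) (t ++ [k])) :
    Sim S T s t := by
  refine ⟨fun a b => Sim S T a b ∨ (a = s ∧ b = t), ?_, Or.inr ⟨rfl, rfl⟩⟩
  rintro a b (hab | ⟨rfl, rfl⟩) n hn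
  · obtain ⟨k, hk, hk'⟩ := hab.step n hn
    exact ⟨k, hk, Or.inl hk'⟩
  · obtain ⟨k, hk, hk'⟩ := h n hn
    exact ⟨k, hk, Or.inl hk'⟩

end Sim

/-- extend the second list while reading the first -/
def fold (g : List ℕ → List ℕ → ℕ → ℕ) (s : List ℕ) : List ℕ × List ℕ :=
  s.foldl (fun p n => (p.1 ++ [n], p.2 ++ [g p.1 p.2 n])) ([], [])

theorem fold_snoc (g : List ℕ → List ℕ → ℕ → ℕ) (s : List ℕ) (n : ℕ) :
    fold g (s ++ [n]) = ((fold g s).1 ++ [n], (fold g s).2 ++ [g (fold g s).1 (fold g s).2 n]) := by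
  unfold fold
  rw [List.foldl_append]
  rfl

theorem fold_fst (g : List ℕ → List ℕ → ℕ → ℕ) (s : List ℕ) : (fold g s).1 = s := by
  induction s using List.reverseRecOn with
  | nil => rfl
  | append_singleton s n ih => rw [fold_snoc, ih]

theorem fold_snd_snoc (g : List ℕ → List ℕ → ℕ → ℕ) (s : List ℕ) (n : ℕ) :
    (fold g (s ++ [n])).2 = (fold g s).2 ++ [g s (fold g s).2 n] := by
  rw [fold_snoc, fold_fst]

/-- the element of `ℕ → ℕ` which codes `φ` -/
def mk (a : ℕ) (φ : List ℕ → ℕ) : ℕ → ℕ
  | 0 => a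
  | n + 1 => φ ((decode n).getD [])

theorem mk_succ (a : ℕ) (φ : List ℕ → ℕ) (s : List ℕ) : mk a φ (encode s + 1) = φ s := by
  change φ ((decode (encode s)).getD []) = φ s
  rw [encodek]
  rfl

theorem full (c : ℕ → Bool) : ∃ m, (c, m) ∈ K := by
  classical
  set S := Tree c false with hS
  set T := Tree c true with hT
  by_cases hS0 : [] ∈ S
  swap
  · refine ⟨mk 0 fun _ => 0, fun s => ⟨fun _ hs => absurd (tree_nil hs) hS0, fun h => absurd rfl h⟩⟩
  by_cases hT0 : [] ∈ T
  swap
  · exact ⟨mk 1 fun _ => 0, fun s => ⟨fun h => absurd h one_ne_zero,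
      fun _ hs => absurd (tree_nil hs) hT0⟩⟩
  by_cases hsim : Sim S T [] []
  · -- the second player copies
    set g : List ℕ → List ℕ → ℕ → ℕ := fun s t n =>
      if h : ∃ k, t ++ [k] ∈ T ∧ Sim S T (s ++ [n]) (t ++ [k]) then h.choose else 0 with hg
    have hgs : ∀ s t n, Sim S T s t → s ++ [n] ∈ S →
        t ++ [g s t n] ∈ T ∧ Sim S T (s ++ [n]) (t ++ [g s t n]) := by
      intro s t n hst hn
      have h := hst.step n hn
      rw [hg]
      simp only [dif_pos h]
      exact h.choose_spec
    set φ : List ℕ → ℕ := fun s => ((fold g s).2.getLast?).getD 0 with hφ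
    have h1 : ∀ s, Phi (mk 0 φ) s = (fold g s).2 := by
      intro s
      induction s using List.reverseRecOn with
      | nil => rfl
      | append_singleton s n ih =>
        rw [Phi_snoc, ih, mk_succ, hφ]
        simp only [fold_snd_snoc]
        simp
    have h2 : ∀ s, s ∈ S → (fold g s).2 ∈ T ∧ Sim S T s (fold g s).2 := by
      intro s
      induction s using List.reverseRecOn with
      | nil => exact fun _ => ⟨hT0, hsim⟩
      | append_singleton s n ih =>
        intro hs
        have ih' := ih (tree_prefix hs)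
        rw [fold_snd_snoc]
        exact hgs _ _ _ ih'.2 hs
    refine ⟨mk 0 φ, fun s => ⟨fun _ hs => ?_, fun h => absurd rfl h⟩⟩
    change Phi (mk 0 φ) s ∈ T
    rw [h1]
    exact (h2 s hs).1
  · -- the first player wins
    set g : List ℕ → List ℕ → ℕ := fun t s =>
      if h : ∃ n, s ++ [n] ∈ S ∧ ∀ k, t ++ [k] ∈ T → ¬ Sim S T (s ++ [n]) (t ++ [k])
      then h.choose else 0 with hg
    have hgs : ∀ s t, ¬ Sim S T s t →
        s ++ [g t s] ∈ S ∧ ∀ k, t ++ [k] ∈ T → ¬ Sim S T (s ++ [g t s]) (t ++ [k]) := by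
      intro s t hst
      have h : ∃ n, s ++ [n] ∈ S ∧ ∀ k, t ++ [k] ∈ T → ¬ Sim S T (s ++ [n]) (t ++ [k]) := by
        by_contra hcon
        apply hst
        refine Sim.intro fun n hn => ?_
        by_contra hcon2
        exact hcon ⟨n, hn, fun k hk hs => hcon2 ⟨k, hk, hs⟩⟩
      rw [hg]
      simp only [dif_pos h]
      exact h.choose_spec
    set G : List ℕ → List ℕ := fun t => (fold (fun t s _ => g t s) t).2 with hG
    have hGs : ∀ t k, G (t ++ [k]) = G t ++ [g t (G t)] := by
      intro t k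
      rw [hG]
      simp only [fold_snd_snoc]
    set φ : List ℕ → ℕ := fun t => g t (G t) with hφ
    have h1 : ∀ t, Psi (mk 1 φ) t = G t ++ [φ t] := by
      intro t
      induction t using List.reverseRecOn with
      | nil =>
        change [mk 1 φ (encode ([] : List ℕ) + 1)] = _
        rw [mk_succ]
        rfl
      | append_singleton t n ih => rw [Psi_snoc, ih, mk_succ, hGs]
    have h2 : ∀ t, t ∈ T → ¬ Sim S T (G t) t := by
      intro t
      induction t using List.reverseRecOn with
      | nil => exact fun _ => hsim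
      | append_singleton t k ih =>
        intro ht
        rw [hGs]
        exact (hgs _ _ (ih (tree_prefix ht))).2 k ht
    refine ⟨mk 1 φ, fun s => ⟨fun h => absurd h one_ne_zero, fun _ hs => ?_⟩⟩
    change Psi (mk 1 φ) s ∈ S
    rw [h1]
    exact (hgs _ _ (h2 s hs)).1

/-! ### No Borel uniformization -/

instance polish : PolishSpace (ℕ → Bool) where

theorem no_unif (m : (ℕ → Bool) → (ℕ → ℕ)) (hm : Measurable m) : ∃ c, (c, m c) ∉ K := by
  by_contra hcon
  push Not at hcon
  set W : Set (ℕ → Bool) := {c | m c 0 = 0} with hW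
  have hWm : MeasurableSet W :=
    ((measurable_pi_apply 0).comp hm) (measurableSet_singleton 0)
  obtain ⟨z, hz⟩ := rep W hWm.analyticSet
  obtain ⟨w, hw⟩ := rep Wᶜ hWm.compl.analyticSet
  set c := code z w with hc
  have hz' : c ∈ W ↔ ∃ y : ℕ → ℕ, ∀ n, res y n ∈ Tree c false := by
    rw [hz]
    refine exists_congr fun y => ?_
    rw [branch_iff]
    refine forall_congr' fun j => forall_congr' fun k => ?_
    rw [hc, code_encode]
    rfl
  have hw' : c ∈ Wᶜ ↔ ∃ y : ℕ → ℕ, ∀ n, res y n ∈ Tree c true := by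
    rw [hw]
    refine exists_congr fun y => ?_
    rw [branch_iff]
    refine forall_congr' fun j => forall_congr' fun k => ?_
    rw [hc, code_encode]
    rfl
  by_cases hcW : c ∈ W
  · obtain ⟨y, hy⟩ := hz'.1 hcW
    refine (hw'.2 ⟨fun i => m c (encode (res y (i + 1)) + 1), fun n => ?_⟩) hcW
    have h1 := (hcon c (res y n)).1 hcW (hy n)
    change Phi (m c) (res y n) ∈ Tree c true at h1
    rwa [Phi_res] at h1
  · obtain ⟨y, hy⟩ := hw'.1 hcW
    refine hcW (hz'.2 ⟨fun i => m c (encode (res y i) + 1), fun n => ?_⟩)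
    rcases Nat.eq_zero_or_pos n with h0 | h0
    · subst h0
      have h1 := (hcon c (res y 0)).2 hcW (hy 0)
      exact tree_nil h1
    · obtain ⟨k, rfl⟩ : ∃ k, n = k + 1 := ⟨n - 1, by omega⟩
      have h1 := (hcon c (res y k)).2 hcW (hy k)
      change Psi (m c) (res y k) ∈ Tree c false at h1
      rwa [Psi_res] at h1

end Uni

theorem uni : StmUni := ⟨Uni.K, Uni.isClosed_K, Uni.full, Uni.no_unif⟩

end Pool.Agent.R508.AB
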